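import Pool.Agent.Zk55.SQ.Gen

/-!
# Modules B4 and B2 (for helper91): completeness of the cosines and of the sines
-/

set_option autoImplicit false

open MeasureTheory Set

namespace Pool.Agent.Zk55.SQ

open Pool.Agent.Zk91.SQ

noncomputable section

theorem fin_Sqa (a : ℝ) : IsFiniteMeasure (volume.restrict (Sqa a)) := by
  refine ⟨?_⟩
  rw [Measure.restrict_apply_univ]
  exact (measure_mono (Sqa_sub a)).trans_lt (Kq_compact a).measure_lt_top

theorem int_of_memLp {a : ℝ} {f : ℂ → ℝ} (hf : MemLp f 2 (volume.restrict (Sqa a))) : IntegrableOn f (Sqa a) := by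
  haveI := fin_Sqa a
  exact hf.integrable (by norm_num)

/-- completeness of the cosines -/
theorem b4 : S_B4 := by
  intro a ha f hf h
  refine gen ha (int_of_memLp hf) fun m n => ?_
  have h1 := h (m, n)
  have hc : ∀ m : ℕ, cN m ≠ 0 := by
    intro m
    unfold cN
    split_ifs
    · exact one_ne_zero
    · positivity
  have e : ∀ z, f z * mn a (m, n) z = (cN m * cN n) * (f z * cs a m n z) := by
    intro z
    unfold mn cs
    ring
  simp only [e] at h1
  rw [integral_const_mul] at h1
  exact (mul_eq_zero.1 h1).resolve_left (mul_ne_zero (hc m) (hc n))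

theorem sin_step (m : ℕ) : ∃ (c c' : ℝ) (k k' : ℕ), ∀ t : ℝ,
    Real.sin t * Real.cos (m * t) = c * Real.sin (k * t) + c' * Real.sin (k' * t) := by
  rcases m with _ | k
  · refine ⟨1, 0, 1, 0, fun t => ?_⟩
    push_cast
    rw [zero_mul, Real.cos_zero]
    ring
  · refine ⟨1 / 2, -(1 / 2), k + 2, k, fun t => ?_⟩
    have key : ∀ A : ℝ, Real.sin t * Real.cos A = 1 / 2 * Real.sin (A + t) + -(1 / 2) * Real.sin (A - t) := by
      intro A
      rw [Real.sin_add, Real.sin_sub]
      ring
    have e2 : ((k + 2 : ℕ) : ℝ) * t = ((k + 1 : ℕ) : ℝ) * t + t := by push_cast; ring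
    have e3 : (k : ℝ) * t = ((k + 1 : ℕ) : ℝ) * t - t := by push_cast; ring
    rw [key, e2, e3]

theorem int4 {μ : Measure ℂ} {f₁ f₂ f₃ f₄ : ℂ → ℝ} (h₁ : Integrable f₁ μ) (h₂ : Integrable f₂ μ)
    (h₃ : Integrable f₃ μ) (h₄ : Integrable f₄ μ) :
    ∫ z, (f₁ z + f₂ z + (f₃ z + f₄ z)) ∂μ = ∫ z, f₁ z ∂μ + ∫ z, f₂ z ∂μ + (∫ z, f₃ z ∂μ + ∫ z, f₄ z ∂μ) := by
  rw [integral_add (f := fun z => f₁ z + f₂ z) (g := fun z => f₃ z + f₄ z) (h₁.add h₂) (h₃.add h₄),
    integral_add h₁ h₂, integral_add h₃ h₄]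

/-- completeness of the sines -/
theorem b2 : S_B2 := by
  intro a ha f hf h
  have hfi := int_of_memLp hf
  have hpa : 0 < Real.pi / a := div_pos Real.pi_pos ha
  have sc : ∀ k l : ℕ, Continuous fun z : ℂ => Real.sin (k * (Real.pi / a * z.re)) * Real.sin (l * (Real.pi / a * z.im)) :=
    fun k l => (Real.continuous_sin.comp (continuous_const.mul (continuous_const.mul Complex.continuous_re))).mul
      (Real.continuous_sin.comp (continuous_const.mul (continuous_const.mul Complex.continuous_im)))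
  have h0 : ∀ k l : ℕ, ∫ z in Sqa a, f z * (Real.sin (k * (Real.pi / a * z.re)) *
      Real.sin (l * (Real.pi / a * z.im))) = 0 := by
    intro k l
    rcases Nat.eq_zero_or_pos k with rfl | hk
    · simp
    rcases Nat.eq_zero_or_pos l with rfl | hl
    · simp
    have h1 := h (k, l) hk hl
    have e : ∀ z, f z * md a (k, l) z = 2 * (f z * (Real.sin (k * (Real.pi / a * z.re)) *
        Real.sin (l * (Real.pi / a * z.im)))) := by
      intro z
      unfold md
      have e1 : Real.pi / a * ((k, l) : ℕ × ℕ).1 * z.re = k * (Real.pi / a * z.re) := by ring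
      have e2 : Real.pi / a * ((k, l) : ℕ × ℕ).2 * z.im = l * (Real.pi / a * z.im) := by ring
      rw [e1, e2]
      ring
    simp only [e] at h1
    rw [integral_const_mul] at h1
    linarith
  set F : ℂ → ℝ := fun z => f z * (Real.sin ((1 : ℕ) * (Real.pi / a * z.re)) * Real.sin ((1 : ℕ) * (Real.pi / a * z.im)))
    with hF
  have hFi : IntegrableOn F (Sqa a) := intF hfi (sc 1 1)
  have hF0 : F =ᵐ[volume.restrict (Sqa a)] 0 := by
    refine gen ha hFi fun m n => ?_
    obtain ⟨c, c', k, k', hk⟩ := sin_step m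
    obtain ⟨d, d', l, l', hl⟩ := sin_step n
    have e : ∀ z, F z * cs a m n z =
        c * d * (f z * (Real.sin (k * (Real.pi / a * z.re)) * Real.sin (l * (Real.pi / a * z.im)))) +
        c * d' * (f z * (Real.sin (k * (Real.pi / a * z.re)) * Real.sin (l' * (Real.pi / a * z.im)))) +
        (c' * d * (f z * (Real.sin (k' * (Real.pi / a * z.re)) * Real.sin (l * (Real.pi / a * z.im)))) +
        c' * d' * (f z * (Real.sin (k' * (Real.pi / a * z.re)) * Real.sin (l' * (Real.pi / a * z.im))))) := by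
      intro z
      have e1 := hk (Real.pi / a * z.re)
      have e2 := hl (Real.pi / a * z.im)
      have e3 : cs a m n z = Real.cos (m * (Real.pi / a * z.re)) * Real.cos (n * (Real.pi / a * z.im)) := by
        unfold cs
        congr 2 <;> ring
      rw [hF]
      simp only
      rw [e3, Nat.cast_one, one_mul, one_mul]
      calc f z * (Real.sin (Real.pi / a * z.re) * Real.sin (Real.pi / a * z.im)) *
          (Real.cos (m * (Real.pi / a * z.re)) * Real.cos (n * (Real.pi / a * z.im))) =
          f z * ((Real.sin (Real.pi / a * z.re) * Real.cos (m * (Real.pi / a * z.re))) *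
            (Real.sin (Real.pi / a * z.im) * Real.cos (n * (Real.pi / a * z.im)))) := by ring
        _ = _ := by rw [e1, e2]; ring
    simp only [e]
    have i : ∀ (r : ℝ) (k l : ℕ), IntegrableOn (fun z => r * (f z * (Real.sin (k * (Real.pi / a * z.re)) *
        Real.sin (l * (Real.pi / a * z.im))))) (Sqa a) := fun r k l => (intF hfi (sc k l)).const_mul r
    rw [int4 (i _ _ _) (i _ _ _) (i _ _ _) (i _ _ _)]
    simp only [integral_const_mul, h0, mul_zero, add_zero]
  have hs : ∀ᵐ z ∂(volume.restrict (Sqa a)), z ∈ Sqa a := ae_restrict_mem (Sqa_open a).measurableSet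
  filter_upwards [hF0, hs] with z hz hzs
  obtain ⟨⟨h1, h2⟩, h3, h4⟩ := hzs
  have key : ∀ u, 0 < u → u < a → 0 < Real.sin ((1 : ℕ) * (Real.pi / a * u)) := by
    intro u hu hua
    rw [Nat.cast_one, one_mul]
    apply Real.sin_pos_of_pos_of_lt_pi (mul_pos hpa hu)
    calc Real.pi / a * u < Real.pi / a * a := mul_lt_mul_of_pos_left hua hpa
      _ = Real.pi := by field_simp
  rw [hF] at hz
  simp only [Pi.zero_apply] at hz ⊢
  exact (mul_eq_zero.1 hz).resolve_right (mul_pos (key _ h1 h2) (key _ h3 h4)).ne'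

end

end Pool.Agent.Zk55.SQ
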