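import Pool.Agent.Zk55.SQ.M6

/-!
# Module M5 (for helper91): from the angular sums to the Bessel function
-/

set_option autoImplicit false

namespace Pool.Agent.Zk55.SQ

open Finset Complex
open Pool.Agent.Zk91.SQ
open Pool.Agent.N661.BR (J0)
open scoped ComplexConjugate

noncomputable section

/-- the phase -/
def ph (w z : ℂ) : ℝ := (conj z * w).re

/-- the plane wave -/
def Fw (w z : ℂ) : ℂ := exp ((ph w z : ℂ) * I)

def co (w : ℂ) (l j : ℕ) : ℂ :=
  (I / 2) ^ l / (l.factorial : ℂ) * (w ^ j * conj w ^ (l - j) * (l.choose j : ℂ))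

def Tw (n : ℕ) (w z : ℂ) : ℂ :=
  ∑ l ∈ range n, ∑ j ∈ range (l + 1), co w l j * (conj z ^ j * z ^ (l - j))

theorem Tw_eq (n : ℕ) (w z : ℂ) :
    Tw n w z = ∑ l ∈ range n, ((ph w z : ℂ) * I) ^ l / (l.factorial : ℂ) := by
  unfold Tw
  refine sum_congr rfl fun l _ => ?_
  have h1 : (ph w z : ℂ) * I = I / 2 * (conj z * w + z * conj w) := by
    have h2 : ((conj z * w).re : ℂ) = (conj z * w + conj (conj z * w)) / 2 := Complex.re_eq_add_conj _
    rw [ph, h2, map_mul, Complex.conj_conj]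
    ring
  rw [h1, mul_pow, add_pow, mul_div_right_comm, mul_sum]
  refine sum_congr rfl fun j _ => ?_
  unfold co
  rw [mul_pow, mul_pow]
  ring

theorem ph_le (w z : ℂ) (hz : ‖z‖ = 1) : |ph w z| ≤ ‖w‖ := by
  unfold ph
  refine (Complex.abs_re_le_norm _).trans ?_
  rw [norm_mul, RCLike.norm_conj, hz, one_mul]

theorem tail (n : ℕ) (w z : ℂ) (hz : ‖z‖ = 1) (hn : ‖w‖ / n.succ ≤ 1 / 2) :
    ‖Fw w z - Tw n w z‖ ≤ ‖w‖ ^ n / (n.factorial : ℝ) * 2 := by
  have h0 : ‖(ph w z : ℂ) * I‖ = |ph w z| := by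
    rw [norm_mul, Complex.norm_I, mul_one, Complex.norm_real, Real.norm_eq_abs]
  have h1 : ‖(ph w z : ℂ) * I‖ ≤ ‖w‖ := by
    rw [h0]
    exact ph_le w z hz
  have h2 : ‖(ph w z : ℂ) * I‖ / n.succ ≤ 1 / 2 :=
    (div_le_div_of_nonneg_right h1 (by positivity)).trans hn
  rw [Tw_eq]
  refine (Complex.exp_bound' h2).trans ?_
  gcongr

theorem ph_cont (w : ℂ) : Continuous (ph w) := by
  unfold ph
  fun_prop

theorem Fw_cont (w : ℂ) : Continuous (Fw w) := by
  unfold Fw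
  have := ph_cont w
  fun_prop

theorem Tw_cont (n : ℕ) (w : ℂ) : Continuous (Tw n w) := by
  unfold Tw
  fun_prop

/-- a mean value over the circle -/
structure Mean (E : (ℂ → ℂ) → ℂ) : Prop where
  lin : ∀ (n : ℕ) (c : ℕ → ℕ → ℂ),
    E (fun z => ∑ l ∈ range n, ∑ j ∈ range (l + 1), c l j * (conj z ^ j * z ^ (l - j))) =
      ∑ l ∈ range n, ∑ j ∈ range (l + 1), c l j * E (fun z => conj z ^ j * z ^ (l - j))
  close : ∀ (f g : ℂ → ℂ) (η : ℝ), Continuous f → Continuous g →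
    (∀ z, ‖z‖ = 1 → ‖f z - g z‖ ≤ η) → ‖E f - E g‖ ≤ η

theorem mean_diff {E₁ E₂ : (ℂ → ℂ) → ℂ} (h₁ : Mean E₁) (h₂ : Mean E₂) (n : ℕ) (w : ℂ) (δ : ℝ) (hδ : 0 ≤ δ)
    (hn : ‖w‖ / n.succ ≤ 1 / 2)
    (h : ∀ l < n, ∀ j ≤ l, ‖E₁ (fun z => conj z ^ j * z ^ (l - j)) - E₂ (fun z => conj z ^ j * z ^ (l - j))‖ ≤ δ) :
    ‖E₁ (Fw w) - E₂ (Fw w)‖ ≤ 2 * (‖w‖ ^ n / (n.factorial : ℝ) * 2) + δ * Real.exp ‖w‖ := by
  have a1 := h₁.close (Fw w) (Tw n w) _ (Fw_cont w) (Tw_cont n w) fun z hz => tail n w z hz hn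
  have a2 := h₂.close (Fw w) (Tw n w) _ (Fw_cont w) (Tw_cont n w) fun z hz => tail n w z hz hn
  have a3 : ‖E₁ (Tw n w) - E₂ (Tw n w)‖ ≤ δ * Real.exp ‖w‖ := by
    have e1 : E₁ (Tw n w) = ∑ l ∈ range n, ∑ j ∈ range (l + 1), co w l j * E₁ (fun z => conj z ^ j * z ^ (l - j)) :=
      h₁.lin n (co w)
    have e2 : E₂ (Tw n w) = ∑ l ∈ range n, ∑ j ∈ range (l + 1), co w l j * E₂ (fun z => conj z ^ j * z ^ (l - j)) :=
      h₂.lin n (co w)
    rw [e1, e2, ← sum_sub_distrib]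
    have b1 : ∀ l ∈ range n, ‖(∑ j ∈ range (l + 1), co w l j * E₁ (fun z => conj z ^ j * z ^ (l - j))) -
        ∑ j ∈ range (l + 1), co w l j * E₂ (fun z => conj z ^ j * z ^ (l - j))‖ ≤
        δ * (‖w‖ ^ l / (l.factorial : ℝ)) := by
      intro l hl
      rw [mem_range] at hl
      rw [← sum_sub_distrib]
      refine (norm_sum_le _ _).trans ?_
      calc ∑ j ∈ range (l + 1), ‖co w l j * E₁ (fun z => conj z ^ j * z ^ (l - j)) -
            co w l j * E₂ (fun z => conj z ^ j * z ^ (l - j))‖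
          ≤ ∑ j ∈ range (l + 1), (1 / 2) ^ l / (l.factorial : ℝ) * (‖w‖ ^ l * (l.choose j : ℝ)) * δ := by
            refine sum_le_sum fun j hj => ?_
            have hj' : j ≤ l := Nat.lt_succ_iff.1 (mem_range.1 hj)
            rw [← mul_sub, norm_mul]
            have c1 : ‖co w l j‖ = (1 / 2) ^ l / (l.factorial : ℝ) * (‖w‖ ^ l * (l.choose j : ℝ)) := by
              unfold co
              rw [norm_mul, norm_div, norm_pow, norm_div, Complex.norm_I, norm_mul, norm_mul, norm_pow, norm_pow,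
                RCLike.norm_conj, ← pow_add, Nat.add_sub_cancel' hj']
              simp
            rw [c1]
            exact mul_le_mul_of_nonneg_left (h l hl j hj') (by positivity)
        _ = (1 / 2) ^ l / (l.factorial : ℝ) * (‖w‖ ^ l * 2 ^ l) * δ := by
            rw [← sum_mul, ← mul_sum, ← mul_sum]
            congr 4
            exact_mod_cast Nat.sum_range_choose l
        _ = δ * (‖w‖ ^ l / (l.factorial : ℝ)) := by
            have : ((1 : ℝ) / 2) ^ l * 2 ^ l = 1 := by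
              rw [← mul_pow]; norm_num
            calc (1 / 2) ^ l / (l.factorial : ℝ) * (‖w‖ ^ l * 2 ^ l) * δ =
                ((1 / 2) ^ l * 2 ^ l) * (δ * (‖w‖ ^ l / (l.factorial : ℝ))) := by ring
              _ = _ := by rw [this, one_mul]
    refine (norm_sum_le _ _).trans ((sum_le_sum b1).trans ?_)
    rw [← mul_sum]
    exact mul_le_mul_of_nonneg_left (Real.sum_le_exp_of_nonneg (norm_nonneg w) n) hδ
  calc ‖E₁ (Fw w) - E₂ (Fw w)‖ = ‖(E₁ (Fw w) - E₁ (Tw n w)) + (E₁ (Tw n w) - E₂ (Tw n w)) -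
        (E₂ (Fw w) - E₂ (Tw n w))‖ := by congr 1; ring
    _ ≤ ‖E₁ (Fw w) - E₁ (Tw n w)‖ + ‖E₁ (Tw n w) - E₂ (Tw n w)‖ + ‖E₂ (Fw w) - E₂ (Tw n w)‖ :=
        (norm_sub_le _ _).trans (add_le_add_left (norm_add_le _ _) _)
    _ ≤ _ := by linarith

/-- the mean over the lattice points -/
def EN (N : ℕ) (f : ℂ → ℂ) : ℂ := (1 / ((circ N).card : ℂ)) * ∑ ξ ∈ circ N, f (dir N ξ)

theorem mean_EN (N : ℕ) (hN : 0 < N) (hne : (circ N).Nonempty) : Mean (EN N) := by
  have hc : (0 : ℝ) < (circ N).card := Nat.cast_pos.2 (card_pos.2 hne)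
  refine ⟨fun n c => ?_, fun f g η _ _ h => ?_⟩
  · unfold EN
    rw [sum_comm, mul_sum]
    refine sum_congr rfl fun l _ => ?_
    rw [sum_comm, mul_sum]
    refine sum_congr rfl fun j _ => ?_
    rw [← mul_sum]
    ring
  · unfold EN
    rw [← mul_sub, ← sum_sub_distrib, norm_mul]
    have h1 : ‖∑ ξ ∈ circ N, (f (dir N ξ) - g (dir N ξ))‖ ≤ (circ N).card * η := by
      refine (norm_sum_le _ _).trans ?_
      rw [← nsmul_eq_mul]
      exact sum_le_card_nsmul _ _ _ fun ξ hξ => h _ (dir_norm N hN ξ hξ)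
    have h2 : ‖(1 / ((circ N).card : ℂ))‖ = 1 / ((circ N).card : ℝ) := by
      rw [norm_div, norm_one, Complex.norm_natCast]
    rw [h2, one_div]
    calc ((circ N).card : ℝ)⁻¹ * ‖∑ ξ ∈ circ N, (f (dir N ξ) - g (dir N ξ))‖ ≤
        ((circ N).card : ℝ)⁻¹ * ((circ N).card * η) := mul_le_mul_of_nonneg_left h1 (by positivity)
      _ = η := by rw [← mul_assoc, inv_mul_cancel₀ hc.ne', one_mul]

/-- the mean over the circle -/
def EC (f : ℂ → ℂ) : ℂ := (1 / (2 * (Real.pi : ℂ))) * ∫ α in (0 : ℝ)..(2 * Real.pi), f (exp ((α : ℂ) * I))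

theorem mean_EC : Mean EC := by
  have hcont : ∀ f : ℂ → ℂ, Continuous f → Continuous fun α : ℝ => f (exp ((α : ℂ) * I)) := fun f hf =>
    hf.comp (by fun_prop)
  refine ⟨fun n c => ?_, fun f g η hf hg h => ?_⟩
  · unfold EC
    rw [intervalIntegral.integral_finsetSum, mul_sum]
    · refine sum_congr rfl fun l _ => ?_
      rw [intervalIntegral.integral_finsetSum, mul_sum]
      · refine sum_congr rfl fun j _ => ?_
        rw [intervalIntegral.integral_const_mul]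
        ring
      · intro j _
        exact (hcont (fun z => c l j * (conj z ^ j * z ^ (l - j))) (by fun_prop)).intervalIntegrable _ _
    · intro l _
      exact (hcont (fun z => ∑ j ∈ range (l + 1), c l j * (conj z ^ j * z ^ (l - j)))
        (by fun_prop)).intervalIntegrable _ _
  · unfold EC
    rw [← mul_sub, ← intervalIntegral.integral_sub ((hcont f hf).intervalIntegrable _ _)
      ((hcont g hg).intervalIntegrable _ _), norm_mul]
    have h1 : ‖∫ α in (0 : ℝ)..(2 * Real.pi), (f (exp ((α : ℂ) * I)) - g (exp ((α : ℂ) * I)))‖ ≤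
        η * |2 * Real.pi - 0| :=
      intervalIntegral.norm_integral_le_of_norm_le_const fun α _ => h _ (Complex.norm_exp_ofReal_mul_I α)
    have h2 : ‖(1 / (2 * (Real.pi : ℂ)))‖ = 1 / (2 * Real.pi) := by
      rw [norm_div, norm_one, norm_mul, Complex.norm_real, Real.norm_eq_abs, abs_of_pos Real.pi_pos]
      norm_num
    have h3 : |2 * Real.pi - 0| = 2 * Real.pi := by
      rw [sub_zero, abs_of_pos (by positivity)]
    rw [h3] at h1
    rw [h2]
    calc 1 / (2 * Real.pi) * ‖∫ α in (0 : ℝ)..(2 * Real.pi), (f (exp ((α : ℂ) * I)) - g (exp ((α : ℂ) * I)))‖ ≤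
        1 / (2 * Real.pi) * (η * (2 * Real.pi)) := mul_le_mul_of_nonneg_left h1 (by positivity)
      _ = η := by
        have := Real.pi_pos
        field_simp

/-- the moments of the circle -/
theorem EC_mono (j p : ℕ) : EC (fun z => conj z ^ j * z ^ p) = if p = j then 1 else 0 := by
  unfold EC
  have hpi : (Real.pi : ℂ) ≠ 0 := by exact_mod_cast Real.pi_ne_zero
  have h1 : ∀ α : ℝ, conj (exp ((α : ℂ) * I)) ^ j * exp ((α : ℂ) * I) ^ p = exp ((((p : ℂ) - j) * I) * α) := by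
    intro α
    rw [← Complex.exp_conj, map_mul, Complex.conj_ofReal, Complex.conj_I, ← Complex.exp_nat_mul,
      ← Complex.exp_nat_mul, ← Complex.exp_add]
    congr 1
    ring
  simp only [h1]
  split_ifs with h
  · subst h
    simp only [sub_self, zero_mul, Complex.exp_zero, intervalIntegral.integral_const, sub_zero]
    rw [Complex.real_smul]
    push_cast
    field_simp
  · have hc : ((p : ℂ) - j) * I ≠ 0 := by
      apply mul_ne_zero _ Complex.I_ne_zero
      rw [sub_ne_zero]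
      exact_mod_cast h
    rw [integral_exp_mul_complex hc]
    have h2 : exp (((p : ℂ) - j) * I * ((2 * Real.pi : ℝ) : ℂ)) = 1 := by
      have h3 := Complex.exp_int_mul_two_pi_mul_I ((p : ℤ) - j)
      rw [← h3]
      congr 1
      push_cast
      ring
    rw [h2]
    simp

/-- the Bessel function as a mean -/
theorem EC_Fw (w : ℂ) : (EC (Fw w)).re = J0 ‖w‖ := by
  unfold EC J0
  have hcont : Continuous fun α : ℝ => Fw w (exp ((α : ℂ) * I)) := (Fw_cont w).comp (by fun_prop)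
  have e0 : (1 / (2 * (Real.pi : ℂ))) = ((1 / (2 * Real.pi) : ℝ) : ℂ) := by push_cast; rfl
  rw [e0, Complex.re_ofReal_mul]
  congr 1
  have e1 := Complex.reCLM.intervalIntegral_comp_comm
    (hcont.intervalIntegrable (μ := MeasureTheory.volume) 0 (2 * Real.pi))
  have e2 : (∫ α in (0 : ℝ)..(2 * Real.pi), Fw w (exp ((α : ℂ) * I))).re =
      ∫ α in (0 : ℝ)..(2 * Real.pi), Real.cos (‖w‖ * Real.cos (α - arg w)) := by
    have e3 : (∫ α in (0 : ℝ)..(2 * Real.pi), Fw w (exp ((α : ℂ) * I))).re =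
      Complex.reCLM (∫ α in (0 : ℝ)..(2 * Real.pi), Fw w (exp ((α : ℂ) * I))) := rfl
    rw [e3, ← e1]
    apply intervalIntegral.integral_congr
    intro α _
    have e4 : ph w (exp ((α : ℂ) * I)) = ‖w‖ * Real.cos (α - arg w) := by
      unfold ph
      rw [Complex.mul_re, Complex.conj_re, Complex.conj_im, Complex.exp_ofReal_mul_I_re,
        Complex.exp_ofReal_mul_I_im, Real.cos_sub]
      have h6 := Complex.norm_mul_cos_arg w
      have h7 := Complex.norm_mul_sin_arg w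
      linear_combination (-Real.cos α) * h6 - Real.sin α * h7
    simp only [Complex.reCLM_apply, Fw]
    rw [Complex.exp_ofReal_mul_I_re, e4]
  rw [e2, intervalIntegral.integral_comp_sub_right (fun u => Real.cos (‖w‖ * Real.cos u)) (arg w)]
  have hper : Function.Periodic (fun u => Real.cos (‖w‖ * Real.cos u)) (2 * Real.pi) := fun u => by
    simp only [Real.cos_add_two_pi]
  have h5 := hper.intervalIntegral_add_eq (-(arg w)) 0
  rw [zero_add] at h5
  rw [← h5]
  congr 1 <;> ring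

/-! ### the moments of the lattice points -/

/-- multiplication by `i` -/
theorem sum_rot (N : ℕ) (f : ℂ → ℂ) : ∑ ξ ∈ circ N, f (I * dir N ξ) = ∑ ξ ∈ circ N, f (dir N ξ) := by
  set u : G := ⟨0, 1⟩ with hu
  have huu : (-u) * u = 1 := by
    rw [hu]; ext <;> simp
  have huu' : u * (-u) = 1 := by rw [mul_comm]; exact huu
  have hn : u.norm = 1 := by rw [norm_eq, hu]; norm_num
  have hn' : (-u).norm = 1 := by rw [Zsqrtd.norm_neg]; exact hn
  have hd : ∀ ξ : G, dir N (u * ξ) = I * dir N ξ := by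
    intro ξ
    unfold dir
    rw [GaussianInt.toComplex_mul, mul_div_assoc]
    congr 1
    rw [hu, GaussianInt.toComplex_def']
    simp
  refine sum_nbij' (fun ξ => u * ξ) (fun ξ => (-u) * ξ) ?_ ?_ ?_ ?_ ?_
  · intro ξ hξ
    rw [mem_circ] at hξ ⊢
    rw [Zsqrtd.norm_mul, hn, one_mul, hξ]
  · intro ξ hξ
    rw [mem_circ] at hξ ⊢
    rw [Zsqrtd.norm_mul, hn', one_mul, hξ]
  · intro ξ _
    rw [← mul_assoc, huu, one_mul]
  · intro ξ _
    rw [← mul_assoc, huu', one_mul]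
  · intro ξ _
    rw [hd]

/-- conjugation -/
theorem sum_conj {M : Type*} [AddCommMonoid M] (N : ℕ) (f : G → M) :
    ∑ ξ ∈ circ N, f (star ξ) = ∑ ξ ∈ circ N, f ξ := by
  refine sum_nbij' (fun ξ => star ξ) (fun ξ => star ξ) ?_ ?_ ?_ ?_ ?_
  · intro ξ hξ
    rw [mem_circ] at hξ ⊢
    rw [norm_eq] at hξ ⊢
    simpa using hξ
  · intro ξ hξ
    rw [mem_circ] at hξ ⊢
    rw [norm_eq] at hξ ⊢
    simpa using hξ
  · intro ξ _
    simp
  · intro ξ _
    simp
  · intro ξ _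
    rfl

theorem sum_pow_zero (N d : ℕ) (hd : ¬ 4 ∣ d) : ∑ ξ ∈ circ N, dir N ξ ^ d = 0 := by
  have h1 := sum_rot N (fun z => z ^ d)
  simp only [mul_pow] at h1
  rw [← mul_sum] at h1
  have h2 : I ^ d ≠ 1 := by
    rw [Complex.I_pow_eq_pow_mod]
    have h3 : d % 4 < 4 := Nat.mod_lt _ (by norm_num)
    have h4 : d % 4 ≠ 0 := fun h => hd (Nat.dvd_of_mod_eq_zero h)
    have h5 : d % 4 = 1 ∨ d % 4 = 2 ∨ d % 4 = 3 := by omega
    rcases h5 with h5 | h5 | h5 <;> rw [h5] <;> intro h6 <;> have := congrArg Complex.re h6 <;>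
      simp [pow_succ] at this
    norm_num at this
  have h7 : (I ^ d - 1) * ∑ ξ ∈ circ N, dir N ξ ^ d = 0 := by
    rw [sub_mul, one_mul, h1, sub_self]
  exact (mul_eq_zero.1 h7).resolve_left (sub_ne_zero.2 h2)

theorem EN_pow (N : ℕ) (hne : (circ N).Nonempty) (m : ℕ) (δ : ℝ) (hδ : 0 ≤ δ)
    (h : ∀ k : ℕ, 0 < k → k ≤ m → ‖A k N‖ ≤ δ * (circ N).card) (d : ℕ) (hd : 0 < d) (hdm : d ≤ m) :
    ‖EN N (fun z => z ^ d)‖ ≤ δ := by
  have hc : (0 : ℝ) < (circ N).card := Nat.cast_pos.2 (card_pos.2 hne)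
  have h2 : ‖(1 / ((circ N).card : ℂ))‖ = 1 / ((circ N).card : ℝ) := by
    rw [norm_div, norm_one, Complex.norm_natCast]
  unfold EN
  by_cases h4 : 4 ∣ d
  · obtain ⟨k, rfl⟩ := h4
    simp only
    rw [← A_eq, norm_mul, h2, one_div]
    calc ((circ N).card : ℝ)⁻¹ * ‖A k N‖ ≤ ((circ N).card : ℝ)⁻¹ * (δ * (circ N).card) :=
          mul_le_mul_of_nonneg_left (h k (by omega) (by omega)) (by positivity)
      _ = δ := by field_simp
  · simp only
    rw [sum_pow_zero N d h4, mul_zero, norm_zero]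
    exact hδ

theorem EN_mono (N : ℕ) (hN : 0 < N) (hne : (circ N).Nonempty) (m : ℕ) (δ : ℝ) (hδ : 0 ≤ δ)
    (h : ∀ k : ℕ, 0 < k → k ≤ m → ‖A k N‖ ≤ δ * (circ N).card) (j p : ℕ) (hjp : j + p ≤ m) :
    ‖EN N (fun z => conj z ^ j * z ^ p) - EC (fun z => conj z ^ j * z ^ p)‖ ≤ δ := by
  have hc : ((circ N).card : ℂ) ≠ 0 := by exact_mod_cast (card_pos.2 hne).ne'
  rw [EC_mono]
  rcases lt_trichotomy p j with h1 | h1 | h1
  · rw [if_neg h1.ne, sub_zero]
    have h2 : EN N (fun z => conj z ^ j * z ^ p) = conj (EN N (fun z => z ^ (j - p))) := by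
      unfold EN
      rw [map_mul, map_sum]
      congr 1
      · simp
      · refine sum_congr rfl fun ξ hξ => ?_
        simp only
        rw [mul_comm]
        exact pow_conj_of_ge (dir_norm N hN ξ hξ) h1.le
    rw [h2, RCLike.norm_conj]
    exact EN_pow N hne m δ hδ h _ (by omega) (by omega)
  · rw [if_pos h1]
    have h2 : EN N (fun z => conj z ^ j * z ^ p) = 1 := by
      unfold EN
      rw [sum_congr rfl (g := fun _ => (1 : ℂ))]
      · rw [sum_const, nsmul_eq_mul, mul_one]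
        exact one_div_mul_cancel hc
      · intro ξ hξ
        simp only
        rw [mul_comm, pow_conj_of_le (dir_norm N hN ξ hξ) h1.symm.le, h1, Nat.sub_self, pow_zero]
    rw [h2, sub_self, norm_zero]
    exact hδ
  · rw [if_neg h1.ne', sub_zero]
    have h2 : EN N (fun z => conj z ^ j * z ^ p) = EN N (fun z => z ^ (p - j)) := by
      unfold EN
      congr 1
      refine sum_congr rfl fun ξ hξ => ?_
      simp only
      rw [mul_comm]
      exact pow_conj_of_le (dir_norm N hN ξ hξ) h1.le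
    rw [h2]
    exact EN_pow N hne m δ hδ h _ (by omega) (by omega)

/-- the sum of the module as a mean -/
theorem EN_Fw (N : ℕ) (w : ℂ) : (EN N (Fw w)).re =
    (1 / ((circ N).card : ℝ)) * ∑ ξ ∈ circ N,
      (Real.cos ((ξ.re : ℝ) / √(N : ℝ) * w.re) * Real.cos ((ξ.im : ℝ) / √(N : ℝ) * w.im)) := by
  unfold EN
  have e0 : (1 / ((circ N).card : ℂ)) = ((1 / ((circ N).card : ℝ) : ℝ) : ℂ) := by push_cast; rfl
  rw [e0, Complex.re_ofReal_mul, Complex.re_sum]
  congr 1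
  have e1 : ∀ ξ : G, (Fw w (dir N ξ)).re =
      Real.cos ((ξ.re : ℝ) / √(N : ℝ) * w.re) * Real.cos ((ξ.im : ℝ) / √(N : ℝ) * w.im) -
        Real.sin ((ξ.re : ℝ) / √(N : ℝ) * w.re) * Real.sin ((ξ.im : ℝ) / √(N : ℝ) * w.im) := by
    intro ξ
    unfold Fw
    rw [Complex.exp_ofReal_mul_I_re, ← Real.cos_add]
    congr 1
    unfold ph dir
    rw [Complex.mul_re, Complex.conj_re, Complex.conj_im, Complex.div_ofReal_re, Complex.div_ofReal_im,
      ← GaussianInt.intCast_re, ← GaussianInt.intCast_im]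
    ring
  rw [sum_congr rfl fun ξ _ => e1 ξ, sum_sub_distrib]
  have e2 : ∑ ξ ∈ circ N, Real.sin ((ξ.re : ℝ) / √(N : ℝ) * w.re) * Real.sin ((ξ.im : ℝ) / √(N : ℝ) * w.im) = 0 := by
    have h1 := sum_conj N fun ξ : G =>
      Real.sin ((ξ.re : ℝ) / √(N : ℝ) * w.re) * Real.sin ((ξ.im : ℝ) / √(N : ℝ) * w.im)
    have h2 : ∀ ξ : G, Real.sin (((star ξ).re : ℝ) / √(N : ℝ) * w.re) *
        Real.sin (((star ξ).im : ℝ) / √(N : ℝ) * w.im) =
        -(Real.sin ((ξ.re : ℝ) / √(N : ℝ) * w.re) * Real.sin ((ξ.im : ℝ) / √(N : ℝ) * w.im)) := by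
      intro ξ
      have h3 : (star ξ).re = ξ.re := by simp
      have h4 : (star ξ).im = -ξ.im := by simp
      rw [h3, h4]
      push_cast
      rw [neg_div, neg_mul, Real.sin_neg]
      ring
    rw [sum_congr rfl fun ξ _ => h2 ξ, sum_neg_distrib] at h1
    linarith
  rw [e2, sub_zero]

/-- module M5 -/
theorem m5 : S_M5 := by
  intro ρ ε hε
  have t1 := FloorSemiring.tendsto_pow_div_factorial_atTop |ρ|
  have t2 := (t1.eventually (gt_mem_nhds (show (0 : ℝ) < ε / 8 by positivity))).and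
    (Filter.eventually_ge_atTop ⌈2 * |ρ|⌉₊)
  obtain ⟨n, hn1, hn2⟩ := t2.exists
  have hn3 : 2 * |ρ| ≤ n := (Nat.le_ceil _).trans (by exact_mod_cast hn2)
  refine ⟨n, ε / (2 * Real.exp |ρ|), by positivity, fun N hN hne h w hw => ?_⟩
  have hw' : ‖w‖ ≤ |ρ| := hw.trans (le_abs_self ρ)
  have hδ : 0 ≤ ε / (2 * Real.exp |ρ|) := by positivity
  rw [← EN_Fw, ← EC_Fw, ← Complex.sub_re]
  refine (Complex.abs_re_le_norm _).trans ?_
  have hn4 : ‖w‖ / n.succ ≤ 1 / 2 := by
    rw [div_le_iff₀ (by positivity)]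
    push_cast
    linarith
  refine (mean_diff (mean_EN N hN hne) mean_EC n w _ hδ hn4 fun l hl j hj =>
    EN_mono N hN hne n _ hδ h j (l - j) (by omega)).trans ?_
  have h1 : ‖w‖ ^ n / (n.factorial : ℝ) ≤ ε / 8 := by
    refine le_trans ?_ hn1.le
    gcongr
  have h2 : ε / (2 * Real.exp |ρ|) * Real.exp ‖w‖ ≤ ε / 2 := by
    calc ε / (2 * Real.exp |ρ|) * Real.exp ‖w‖ ≤ ε / (2 * Real.exp |ρ|) * Real.exp |ρ| := by gcongr
      _ = ε / 2 := by field_simp
  linarith

end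

end Pool.Agent.Zk55.SQ
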