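import Pool.Agent.Zk91.SQ.Defs6

/-!
# Module W4 (for helper91): the finite dimensional distributions determine the law on `C(ℂ, ℝ)`
-/

set_option autoImplicit false

open MeasureTheory Filter Topology Set

namespace Pool.Agent.Zk55.SQ.W4

open Pool.Agent.Zk91.SQ

noncomputable section

/-- the evaluations -/
def ev (f : C(ℂ, ℝ)) : ℂ → ℝ := f

theorem ev_meas : Measurable ev :=
  measurable_pi_iff.2 fun x => (continuous_eval_const x).measurable

/-- the sets of the subbasis of the compact-open topology are cylinder sets -/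
theorem cyl (K : Set ℂ) (U : Set ℝ) (hK : IsCompact K) (hU : IsOpen U) :
    ∃ S : Set (ℂ → ℝ), MeasurableSet S ∧ ev ⁻¹' S = {f : C(ℂ, ℝ) | MapsTo f K U} := by
  obtain ⟨D, hDc, hDd⟩ := TopologicalSpace.exists_countable_dense K
  haveI : Countable D := hDc.to_subtype
  refine ⟨{g : ℂ → ℝ | 0 < ⨅ x : D, Metric.infEDist (g x.1.1) Uᶜ}, ?_, ?_⟩
  · have hm : Measurable fun g : ℂ → ℝ => ⨅ x : D, Metric.infEDist (g x.1.1) Uᶜ :=
      Measurable.iInf fun x => measurable_infEDist.comp (measurable_pi_apply x.1.1)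
    exact measurableSet_lt measurable_const hm
  · have hcl : closure Uᶜ = Uᶜ := hU.isClosed_compl.closure_eq
    have hpos : ∀ y : ℝ, 0 < Metric.infEDist y Uᶜ ↔ y ∈ U := by
      intro y
      rw [Metric.infEDist_pos_iff_notMem_closure, hcl, Set.mem_compl_iff, not_not]
    ext f
    have hg : Continuous fun x : ℂ => Metric.infEDist (f x) Uᶜ := Metric.continuous_infEDist.comp f.continuous
    constructor
    · intro h x hx
      have h' : 0 < ⨅ x : D, Metric.infEDist (f x.1.1) Uᶜ := h
      have hclosed : IsClosed {x : K | (⨅ x : D, Metric.infEDist (f x.1.1) Uᶜ) ≤ Metric.infEDist (f x.1) Uᶜ} :=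
        isClosed_le continuous_const (hg.comp continuous_subtype_val)
      have hsub : D ⊆ {x : K | (⨅ x : D, Metric.infEDist (f x.1.1) Uᶜ) ≤ Metric.infEDist (f x.1) Uᶜ} :=
        fun x hx => iInf_le (fun x : D => Metric.infEDist (f x.1.1) Uᶜ) ⟨x, hx⟩
      have h1 := hclosed.closure_subset_iff.2 hsub (hDd ⟨x, hx⟩)
      exact (hpos _).1 (lt_of_lt_of_le h' h1)
    · intro h
      show 0 < ⨅ x : D, Metric.infEDist (f x.1.1) Uᶜ
      rcases K.eq_empty_or_nonempty with hKe | hKn
      · haveI : IsEmpty D := ⟨fun x => Set.eq_empty_iff_forall_notMem.1 hKe x.1.1 x.1.2⟩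
        rw [iInf_of_empty]
        exact ENNReal.zero_lt_top
      · obtain ⟨x0, hx0, hmin⟩ := hK.exists_isMinOn hKn hg.continuousOn
        refine lt_of_lt_of_le ((hpos _).2 (h hx0)) (le_iInf fun x => ?_)
        exact hmin x.1.2

theorem borel_le : (instMeasC : MeasurableSpace C(ℂ, ℝ)) ≤ MeasurableSpace.comap ev MeasurableSpace.pi := by
  have h1 : (instMeasC : MeasurableSpace C(ℂ, ℝ)) = MeasurableSpace.generateFrom
      (image2 (fun (K : Set ℂ) (U : Set ℝ) => {f : C(ℂ, ℝ) | MapsTo f K U}) {K | IsCompact K} {t | IsOpen t}) :=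
    borel_eq_generateFrom_of_subbasis ContinuousMap.compactOpen_eq
  rw [h1]
  apply MeasurableSpace.generateFrom_le
  rintro _ ⟨K, hK, U, hU, rfl⟩
  obtain ⟨S, hS, hS2⟩ := cyl K U hK hU
  exact ⟨S, hS, hS2⟩

/-- the marginals -/
theorem marg (μ ν : Measure C(ℂ, ℝ)) [IsProbabilityMeasure μ] [IsProbabilityMeasure ν]
    (h : ∀ (k : ℕ) (w : Fin k → ℂ) (t : Fin k → ℝ), chf μ w t = chf ν w t) (I : Finset ℂ) :
    (μ.map ev).map I.restrict = (ν.map ev).map I.restrict := by
  have hr : Measurable (I.restrict : (ℂ → ℝ) → (I → ℝ)) := Finset.measurable_restrict I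
  haveI : IsProbabilityMeasure (μ.map ev) := Measure.isProbabilityMeasure_map ev_meas.aemeasurable
  haveI : IsProbabilityMeasure (ν.map ev) := Measure.isProbabilityMeasure_map ev_meas.aemeasurable
  haveI : IsProbabilityMeasure ((μ.map ev).map I.restrict) := Measure.isProbabilityMeasure_map hr.aemeasurable
  haveI : IsProbabilityMeasure ((ν.map ev).map I.restrict) := Measure.isProbabilityMeasure_map hr.aemeasurable
  have key : ∀ (ρ : Measure C(ℂ, ℝ)) (L : StrongDual ℝ (I → ℝ)),
      charFunDual ((ρ.map ev).map I.restrict) L = chf ρ (fun j : Fin I.card => ((I.equivFin.symm j : I) : ℂ))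
        (fun j => L (Pi.single (I.equivFin.symm j) 1)) := by
    intro ρ L
    rw [charFunDual_apply, Measure.map_map hr ev_meas]
    have hc : Continuous fun v : I → ℝ => Complex.exp ((L v : ℂ) * Complex.I) := by fun_prop
    rw [integral_map (hr.comp ev_meas).aemeasurable hc.measurable.aestronglyMeasurable]
    unfold chf
    apply integral_congr_ae
    refine Filter.Eventually.of_forall fun f => ?_
    simp only
    rw [mul_comm]
    congr 2
    have h1 : (I.restrict ∘ ev) f = ∑ i : I, (f i.1) • (Pi.single i (1 : ℝ) : I → ℝ) := by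
      funext i
      rw [Finset.sum_apply, Finset.sum_eq_single i]
      · simp [ev]
      · intro j _ hj
        rw [Pi.smul_apply, Pi.single_eq_of_ne hj.symm, smul_zero]
      · intro hi
        exact absurd (Finset.mem_univ i) hi
    rw [h1, map_sum, ← Equiv.sum_comp I.equivFin.symm]
    congr 1
    refine Finset.sum_congr rfl fun j _ => ?_
    rw [map_smul, smul_eq_mul, mul_comm]
  apply Measure.ext_of_charFunDual
  funext L
  rw [key μ L, key ν L, h]

theorem w4 : S_W4 := by
  intro μ ν hμ hν h
  haveI : IsProbabilityMeasure (μ.map ev) := Measure.isProbabilityMeasure_map ev_meas.aemeasurable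
  haveI : IsProbabilityMeasure (ν.map ev) := Measure.isProbabilityMeasure_map ev_meas.aemeasurable
  have hmap : μ.map ev = ν.map ev := by
    have h1 : IsProjectiveLimit (μ.map ev) (fun I : Finset ℂ => (μ.map ev).map I.restrict) := fun I => rfl
    have h2 : IsProjectiveLimit (ν.map ev) (fun I : Finset ℂ => (μ.map ev).map I.restrict) :=
      fun I => (marg μ ν h I).symm
    haveI : ∀ I : Finset ℂ, IsFiniteMeasure ((μ.map ev).map I.restrict) := fun I => inferInstance
    exact h1.unique h2
  ext B hB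
  obtain ⟨S, hS, rfl⟩ := borel_le B hB
  rw [← Measure.map_apply ev_meas hS, ← Measure.map_apply ev_meas hS, hmap]

end

end Pool.Agent.Zk55.SQ.W4
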