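import Pool.Agent.Zk91.SQ.Defs4

/-!
# Completeness of the products of cosines in the square (for helper91)

`gen`: an integrable function on the square which is orthogonal to all `cos (π m x / a) cos (π n y / a)`
vanishes almost everywhere. Proof by the theorem of Stone and Weierstrass: the polynomials in
`cos (π x / a)` and `cos (π y / a)` are dense in the continuous functions on the closed square.
-/

set_option autoImplicit false

open MeasureTheory Set
open scoped ContDiff

namespace Pool.Agent.Zk55.SQ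

open Pool.Agent.Zk91.SQ

noncomputable section

/-- the closed square -/
def Kq (a : ℝ) : Set ℂ := Set.Icc 0 a ×ℂ Set.Icc 0 a

theorem Kq_compact (a : ℝ) : IsCompact (Kq a) := isCompact_Icc.reProdIm isCompact_Icc

theorem Sqa_sub (a : ℝ) : Sqa a ⊆ Kq a := by
  intro z hz
  obtain ⟨⟨h1, h2⟩, h3, h4⟩ := hz
  exact ⟨⟨h1.le, h2.le⟩, h3.le, h4.le⟩

theorem Sqa_open (a : ℝ) : IsOpen (Sqa a) := by
  unfold Sqa
  refine ((isOpen_lt continuous_const Complex.continuous_re).inter
    (isOpen_lt Complex.continuous_re continuous_const)).inter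
    ((isOpen_lt continuous_const Complex.continuous_im).inter
    (isOpen_lt Complex.continuous_im continuous_const))

theorem ae_Sqa (a : ℝ) {p : ℂ → Prop} (h : ∀ z ∈ Sqa a, p z) : ∀ᵐ z ∂(volume.restrict (Sqa a)), p z :=
  (ae_restrict_iff' (Sqa_open a).measurableSet).2 (Filter.Eventually.of_forall h)

theorem intF {a : ℝ} {F : ℂ → ℝ} (hF : IntegrableOn F (Sqa a)) {g : ℂ → ℝ} (hg : Continuous g) :
    IntegrableOn (fun z => F z * g z) (Sqa a) := by
  obtain ⟨C, hC⟩ := (Kq_compact a).exists_bound_of_continuousOn hg.continuousOn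
  exact Integrable.mul_bdd (c := C) hF hg.aestronglyMeasurable (ae_Sqa a fun z hz => hC z (Sqa_sub a hz))

/-- product of cosines -/
def cs (a : ℝ) (m n : ℕ) (z : ℂ) : ℝ := Real.cos (Real.pi / a * m * z.re) * Real.cos (Real.pi / a * n * z.im)

theorem cs_cont (a : ℝ) (m n : ℕ) : Continuous (cs a m n) := by
  unfold cs
  exact (Real.continuous_cos.comp (continuous_const.mul Complex.continuous_re)).mul
    (Real.continuous_cos.comp (continuous_const.mul Complex.continuous_im))

/-- orthogonality of `F g` to the products of cosines -/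
def PP (a : ℝ) (F g : ℂ → ℝ) : Prop := ∀ m n : ℕ, ∫ z in Sqa a, F z * (g z * cs a m n z) = 0

theorem PP_half {a : ℝ} {F g : ℂ → ℝ} (hF : IntegrableOn F (Sqa a)) (hg : Continuous g) (h : PP a F g)
    (m n m' n' : ℕ) : ∫ z in Sqa a, F z * (g z * (1 / 2 * (cs a m n z + cs a m' n' z))) = 0 := by
  have e : ∀ z, F z * (g z * (1 / 2 * (cs a m n z + cs a m' n' z))) =
      1 / 2 * (F z * (g z * cs a m n z)) + 1 / 2 * (F z * (g z * cs a m' n' z)) := fun z => by ring
  simp only [e]
  have i1 : IntegrableOn (fun z => F z * (g z * cs a m n z)) (Sqa a) := intF hF (hg.mul (cs_cont a m n))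
  have i2 : IntegrableOn (fun z => F z * (g z * cs a m' n' z)) (Sqa a) := intF hF (hg.mul (cs_cont a m' n'))
  rw [integral_add (i1.const_mul _) (i2.const_mul _), integral_const_mul, integral_const_mul, h m n, h m' n']
  ring

def C1 (a : ℝ) (z : ℂ) : ℝ := Real.cos (Real.pi / a * z.re)
def C2 (a : ℝ) (z : ℂ) : ℝ := Real.cos (Real.pi / a * z.im)

theorem C1_cont (a : ℝ) : Continuous (C1 a) :=
  Real.continuous_cos.comp (continuous_const.mul Complex.continuous_re)

theorem C2_cont (a : ℝ) : Continuous (C2 a) :=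
  Real.continuous_cos.comp (continuous_const.mul Complex.continuous_im)

theorem cos_step (A B : ℝ) : Real.cos B * Real.cos A = 1 / 2 * (Real.cos (A + B) + Real.cos (A - B)) := by
  rw [Real.cos_add, Real.cos_sub]; ring

theorem PP_C1 {a : ℝ} {F g : ℂ → ℝ} (hF : IntegrableOn F (Sqa a)) (hg : Continuous g) (h : PP a F g) :
    PP a F (fun z => C1 a z * g z) := by
  intro m n
  rcases m with _ | k
  · have e : ∀ z, F z * (C1 a z * g z * cs a 0 n z) = F z * (g z * cs a 1 n z) := by
      intro z
      unfold C1 cs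
      push_cast
      rw [mul_zero, zero_mul, Real.cos_zero, mul_one]
      ring
    simp only [e]
    exact h 1 n
  · have e : ∀ z, F z * (C1 a z * g z * cs a (k + 1) n z) =
        F z * (g z * (1 / 2 * (cs a (k + 2) n z + cs a k n z))) := by
      intro z
      have e1 := cos_step (Real.pi / a * ((k + 1 : ℕ) : ℝ) * z.re) (Real.pi / a * z.re)
      have e2 : Real.pi / a * ((k + 1 : ℕ) : ℝ) * z.re + Real.pi / a * z.re =
          Real.pi / a * ((k + 2 : ℕ) : ℝ) * z.re := by push_cast; ring
      have e3 : Real.pi / a * ((k + 1 : ℕ) : ℝ) * z.re - Real.pi / a * z.re =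
          Real.pi / a * (k : ℝ) * z.re := by push_cast; ring
      rw [e2, e3] at e1
      unfold C1 cs
      linear_combination (F z * g z * Real.cos (Real.pi / a * n * z.im)) * e1
    simp only [e]
    exact PP_half hF hg h _ _ _ _

theorem PP_C2 {a : ℝ} {F g : ℂ → ℝ} (hF : IntegrableOn F (Sqa a)) (hg : Continuous g) (h : PP a F g) :
    PP a F (fun z => C2 a z * g z) := by
  intro m n
  rcases n with _ | k
  · have e : ∀ z, F z * (C2 a z * g z * cs a m 0 z) = F z * (g z * cs a m 1 z) := by
      intro z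
      unfold C2 cs
      push_cast
      rw [mul_zero, zero_mul, Real.cos_zero, mul_one]
      ring
    simp only [e]
    exact h m 1
  · have e : ∀ z, F z * (C2 a z * g z * cs a m (k + 1) z) =
        F z * (g z * (1 / 2 * (cs a m (k + 2) z + cs a m k z))) := by
      intro z
      have e1 := cos_step (Real.pi / a * ((k + 1 : ℕ) : ℝ) * z.im) (Real.pi / a * z.im)
      have e2 : Real.pi / a * ((k + 1 : ℕ) : ℝ) * z.im + Real.pi / a * z.im =
          Real.pi / a * ((k + 2 : ℕ) : ℝ) * z.im := by push_cast; ring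
      have e3 : Real.pi / a * ((k + 1 : ℕ) : ℝ) * z.im - Real.pi / a * z.im =
          Real.pi / a * (k : ℝ) * z.im := by push_cast; ring
      rw [e2, e3] at e1
      unfold C2 cs
      linear_combination (F z * g z * Real.cos (Real.pi / a * m * z.re)) * e1
    simp only [e]
    exact PP_half hF hg h _ _ _ _

/-- the algebra of the polynomials in the two cosines -/
def AA (a : ℝ) : Subalgebra ℝ C(ℂ, ℝ) :=
  Algebra.adjoin ℝ {(⟨C1 a, C1_cont a⟩ : C(ℂ, ℝ)), ⟨C2 a, C2_cont a⟩}

theorem PP_AA {a : ℝ} {F : ℂ → ℝ} (hF : IntegrableOn F (Sqa a)) {x : C(ℂ, ℝ)} (hx : x ∈ AA a) :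
    ∀ g : C(ℂ, ℝ), PP a F g → PP a F (fun z => x z * g z) := by
  refine Algebra.adjoin_induction (p := fun x _ => ∀ g : C(ℂ, ℝ), PP a F g → PP a F (fun z => x z * g z))
    ?_ ?_ ?_ ?_ hx
  · rintro x hx g hg
    rcases hx with rfl | hx
    · exact PP_C1 hF g.continuous hg
    · rw [mem_singleton_iff] at hx
      subst hx
      exact PP_C2 hF g.continuous hg
  · intro r g hg m n
    have e : ∀ z, F z * ((algebraMap ℝ C(ℂ, ℝ) r) z * g z * cs a m n z) = r * (F z * (g z * cs a m n z)) := by
      intro z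
      have : (algebraMap ℝ C(ℂ, ℝ) r) z = r := by simp
      rw [this]
      ring
    simp only [e]
    rw [integral_const_mul, hg m n, mul_zero]
  · intro x y _ _ hx hy g hg m n
    have e : ∀ z, F z * ((x + y) z * g z * cs a m n z) = F z * (x z * g z * cs a m n z) +
        F z * (y z * g z * cs a m n z) := by
      intro z
      rw [ContinuousMap.add_apply]
      ring
    simp only [e]
    have i1 : IntegrableOn (fun z => F z * (x z * g z * cs a m n z)) (Sqa a) :=
      intF hF ((x.continuous.mul g.continuous).mul (cs_cont a m n))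
    have i2 : IntegrableOn (fun z => F z * (y z * g z * cs a m n z)) (Sqa a) :=
      intF hF ((y.continuous.mul g.continuous).mul (cs_cont a m n))
    rw [integral_add i1 i2, hx g hg m n, hy g hg m n, add_zero]
  · intro x y _ _ hx hy g hg
    have h1 := hx (y * g) (hy g hg)
    intro m n
    have h2 := h1 m n
    have e : ∀ z, F z * ((x * y) z * g z * cs a m n z) = F z * (x z * (y * g) z * cs a m n z) := by
      intro z
      rw [ContinuousMap.mul_apply, ContinuousMap.mul_apply]
      ring
    simp only [e]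
    exact h2

/-- density -/
theorem near {a : ℝ} (ha : 0 < a) (φ : ℂ → ℝ) (hφ : Continuous φ) (ε : ℝ) (hε : 0 < ε) :
    ∃ x ∈ AA a, ∀ z ∈ Kq a, |(x : C(ℂ, ℝ)) z - φ z| < ε := by
  haveI : CompactSpace (Kq a) := isCompact_iff_compactSpace.1 (Kq_compact a)
  let res : C(ℂ, ℝ) →⋆ₐ[ℝ] C(Kq a, ℝ) :=
    ContinuousMap.compStarAlgHom' ℝ ℝ ⟨(Subtype.val), continuous_subtype_val⟩
  let AK : Subalgebra ℝ C(Kq a, ℝ) := Subalgebra.map res (AA a)
  have hinj : ∀ s t : ℝ, s ∈ Icc 0 a → t ∈ Icc 0 a → Real.cos (Real.pi / a * s) = Real.cos (Real.pi / a * t) →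
      s = t := by
    intro s t hs ht h
    have hpa : 0 < Real.pi / a := div_pos Real.pi_pos ha
    have key : ∀ u ∈ Icc 0 a, Real.pi / a * u ∈ Icc 0 Real.pi := by
      intro u hu
      refine ⟨mul_nonneg hpa.le hu.1, ?_⟩
      calc Real.pi / a * u ≤ Real.pi / a * a := mul_le_mul_of_nonneg_left hu.2 hpa.le
        _ = Real.pi := by field_simp
    have := Real.injOn_cos (key s hs) (key t ht) h
    exact mul_left_cancel₀ hpa.ne' this
  have hsep : AK.SeparatesPoints := by
    intro x y hxy
    have hne : (x : ℂ) ≠ y := fun h => hxy (Subtype.ext h)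
    have h1 : (x : ℂ).re ≠ (y : ℂ).re ∨ (x : ℂ).im ≠ (y : ℂ).im := by
      by_contra hc
      push Not at hc
      exact hne (Complex.ext hc.1 hc.2)
    rcases h1 with h1 | h1
    · refine ⟨_, ⟨res ⟨C1 a, C1_cont a⟩, Subalgebra.mem_map.2 ⟨_, Algebra.subset_adjoin (by simp), rfl⟩, rfl⟩, ?_⟩
      intro h2
      exact h1 (hinj _ _ x.2.1 y.2.1 h2)
    · refine ⟨_, ⟨res ⟨C2 a, C2_cont a⟩, Subalgebra.mem_map.2 ⟨_, Algebra.subset_adjoin (by simp), rfl⟩, rfl⟩, ?_⟩
      intro h2
      exact h1 (hinj _ _ x.2.2 y.2.2 h2)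
  obtain ⟨⟨gK, hgK⟩, hg⟩ := ContinuousMap.exists_mem_subalgebra_near_continuous_of_separatesPoints AK hsep
    (fun z : Kq a => φ z) (hφ.comp continuous_subtype_val) ε hε
  obtain ⟨g, hgA, rfl⟩ := Subalgebra.mem_map.1 hgK
  refine ⟨g, hgA, fun z hz => ?_⟩
  have := hg ⟨z, hz⟩
  rwa [Real.norm_eq_abs] at this

/-- an integrable function orthogonal to all products of cosines vanishes -/
theorem gen {a : ℝ} (ha : 0 < a) {F : ℂ → ℝ} (hF : IntegrableOn F (Sqa a))
    (h : ∀ m n : ℕ, ∫ z in Sqa a, F z * cs a m n z = 0) : F =ᵐ[volume.restrict (Sqa a)] 0 := by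
  have h1 : PP a F (1 : C(ℂ, ℝ)) := by
    intro m n
    have e : ∀ z, F z * ((1 : C(ℂ, ℝ)) z * cs a m n z) = F z * cs a m n z := by
      intro z
      rw [ContinuousMap.one_apply, one_mul]
    simp only [e]
    exact h m n
  have h2 : ∀ x ∈ AA a, ∫ z in Sqa a, F z * (x : C(ℂ, ℝ)) z = 0 := by
    intro x hx
    have h3 := PP_AA hF hx 1 h1 0 0
    have e : ∀ z, F z * (x z * (1 : C(ℂ, ℝ)) z * cs a 0 0 z) = F z * x z := by
      intro z
      unfold cs
      rw [ContinuousMap.one_apply]
      push_cast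
      rw [mul_zero, zero_mul, zero_mul, Real.cos_zero]
      ring
    simp only [e] at h3
    exact h3
  have h3 : ∀ φ : ℂ → ℝ, Continuous φ → ∫ z in Sqa a, F z * φ z = 0 := by
    intro φ hφ
    by_contra hne
    set I : ℝ := ∫ z in Sqa a, |F z| with hI
    have hI0 : 0 ≤ I := integral_nonneg fun z => abs_nonneg _
    have hpos : 0 < |∫ z in Sqa a, F z * φ z| := abs_pos.2 hne
    set ε : ℝ := |∫ z in Sqa a, F z * φ z| / (2 * (I + 1)) with hε
    have hε0 : 0 < ε := by positivity
    obtain ⟨x, hx, hxe⟩ := near ha φ hφ ε hε0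
    have h4 : ∫ z in Sqa a, F z * φ z = ∫ z in Sqa a, F z * (φ z - x z) := by
      have e : ∀ z, F z * (φ z - x z) = F z * φ z - F z * x z := fun z => by ring
      simp only [e]
      rw [integral_sub (intF hF hφ) (intF hF x.continuous), h2 x hx, sub_zero]
    have h5 : |∫ z in Sqa a, F z * (φ z - x z)| ≤ ε * I := by
      rw [← Real.norm_eq_abs, hI, ← integral_const_mul]
      apply norm_integral_le_of_norm_le (hF.abs.const_mul ε)
      refine ae_Sqa a fun z hz => ?_
      rw [norm_mul, Real.norm_eq_abs, Real.norm_eq_abs, mul_comm]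
      have h6 := hxe z (Sqa_sub a hz)
      rw [abs_sub_comm] at h6
      exact mul_le_mul_of_nonneg_right h6.le (abs_nonneg _)
    rw [← h4] at h5
    have h6 : ε * I < |∫ z in Sqa a, F z * φ z| := by
      rw [hε, div_mul_eq_mul_div, div_lt_iff₀ (by positivity)]
      nlinarith
    linarith
  have h4 : ∀ᵐ z ∂(volume : Measure ℂ), z ∈ Sqa a → F z = 0 := by
    refine IsOpen.ae_eq_zero_of_integral_contDiff_smul_eq_zero (Sqa_open a) hF.locallyIntegrableOn ?_
    intro g hg _ hgs
    have h5 : ∫ z, g z • F z = ∫ z in Sqa a, F z * g z := by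
      rw [← setIntegral_eq_integral_of_forall_compl_eq_zero (s := Sqa a)]
      · apply integral_congr_ae
        exact Filter.Eventually.of_forall fun z => by simp [mul_comm]
      · intro z hz
        have : g z = 0 := by
          by_contra hne
          exact hz (hgs (subset_tsupport g hne))
        rw [this, zero_smul]
    rw [h5]
    exact h3 g hg.continuous
  exact (ae_restrict_iff' (Sqa_open a).measurableSet).2 h4

end

end Pool.Agent.Zk55.SQ
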