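import Pool.Agent.Zk91.SQ.Defs2

/-!
# Module M6 (for helper91): small angular sums force many points (Fejér)
-/

set_option autoImplicit false

namespace Pool.Agent.Zk55.SQ

open Finset Complex
open Pool.Agent.Zk91.SQ
open scoped ComplexConjugate

/-- double counting -/
theorem fejer {ι : Type*} (S : Finset ι) (z : ι → ℂ) (R : Finset ℕ) :
    ∑ p ∈ S ×ˢ S, ‖∑ j ∈ R, (z p.1 * conj (z p.2)) ^ j‖ ^ 2 =
      ∑ q ∈ R ×ˢ R, ‖∑ ξ ∈ S, z ξ ^ q.1 * conj (z ξ) ^ q.2‖ ^ 2 := by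
  have h : ((∑ p ∈ S ×ˢ S, ‖∑ j ∈ R, (z p.1 * conj (z p.2)) ^ j‖ ^ 2 : ℝ) : ℂ) =
      ((∑ q ∈ R ×ˢ R, ‖∑ ξ ∈ S, z ξ ^ q.1 * conj (z ξ) ^ q.2‖ ^ 2 : ℝ) : ℂ) := by
    push_cast
    have e1 : ∀ p : ι × ι, (‖∑ j ∈ R, (z p.1 * conj (z p.2)) ^ j‖ : ℂ) ^ 2 =
        ∑ q ∈ R ×ˢ R, (z p.1 ^ q.1 * conj (z p.1) ^ q.2) * (conj (z p.2) ^ q.1 * z p.2 ^ q.2) := by
      intro p
      rw [← Complex.mul_conj', map_sum, sum_mul_sum, ← sum_product']
      apply sum_congr rfl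
      intro q _
      simp only [mul_pow, map_mul, map_pow, Complex.conj_conj]
      ring
    have e2 : ∀ q : ℕ × ℕ, (‖∑ ξ ∈ S, z ξ ^ q.1 * conj (z ξ) ^ q.2‖ : ℂ) ^ 2 =
        ∑ p ∈ S ×ˢ S, (z p.1 ^ q.1 * conj (z p.1) ^ q.2) * (conj (z p.2) ^ q.1 * z p.2 ^ q.2) := by
      intro q
      rw [← Complex.mul_conj', map_sum, sum_mul_sum, ← sum_product']
      apply sum_congr rfl
      intro p _
      simp only [map_mul, map_pow, Complex.conj_conj]
    rw [sum_congr rfl fun p _ => e1 p, sum_congr rfl fun q _ => e2 q, sum_comm]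
  exact_mod_cast h

/-- the direction of a Gaussian integer -/
noncomputable def dir (N : ℕ) (ξ : G) : ℂ := GaussianInt.toComplex ξ / (√(N : ℝ) : ℂ)

theorem dir_norm (N : ℕ) (hN : 0 < N) (ξ : G) (hξ : ξ ∈ circ N) : ‖dir N ξ‖ = 1 := by
  rw [mem_circ] at hξ
  have h1 : Complex.normSq (GaussianInt.toComplex ξ) = (N : ℝ) := by
    rw [← GaussianInt.intCast_real_norm, hξ]
    push_cast
    rfl
  have hN' : (0 : ℝ) < √(N : ℝ) := Real.sqrt_pos.2 (by exact_mod_cast hN)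
  unfold dir
  rw [norm_div, Complex.norm_def, h1, Complex.norm_of_nonneg hN'.le, div_self hN'.ne']

theorem psi_eq (N : ℕ) (k : ℕ) (ξ : G) (hξ : ξ ∈ circ N) : psi k ξ = dir N ξ ^ (4 * k) := by
  rw [mem_circ] at hξ
  unfold psi dir
  rw [hξ, div_pow]
  congr 1
  have h1 : (√(N : ℝ) : ℂ) ^ 2 = (N : ℂ) := by
    rw [← Complex.ofReal_pow, Real.sq_sqrt (Nat.cast_nonneg N)]
    push_cast
    rfl
  have h2 : (√(N : ℝ) : ℂ) ^ (4 * k) = (N : ℂ) ^ (2 * k) := by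
    rw [show 4 * k = 2 * (2 * k) by ring, pow_mul (√(N : ℝ) : ℂ), h1]
  rw [h2]
  push_cast
  rfl

theorem A_eq (k N : ℕ) : A k N = ∑ ξ ∈ circ N, dir N ξ ^ (4 * k) := by
  unfold A
  exact sum_congr rfl fun ξ hξ => psi_eq N k ξ hξ

/-- for unimodular numbers -/
theorem pow_conj_of_le {z : ℂ} (hz : ‖z‖ = 1) {j l : ℕ} (h : l ≤ j) : z ^ j * conj z ^ l = z ^ (j - l) := by
  have h1 : z * conj z = 1 := by
    rw [Complex.mul_conj', hz]; norm_num
  obtain ⟨d, rfl⟩ := Nat.exists_eq_add_of_le h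
  rw [Nat.add_sub_cancel_left, pow_add, mul_comm (z ^ l), mul_assoc, ← mul_pow, h1, one_pow, mul_one]

theorem pow_conj_of_ge {z : ℂ} (hz : ‖z‖ = 1) {j l : ℕ} (h : j ≤ l) : z ^ j * conj z ^ l = conj (z ^ (l - j)) := by
  have h2 : ‖conj z‖ = 1 := by rw [RCLike.norm_conj, hz]
  have h1 := pow_conj_of_le h2 h
  rw [Complex.conj_conj] at h1
  rw [mul_comm, h1, map_pow]

theorem m6 : S_M6 := by
  intro m δ N hN hne h
  set c : ℝ := ((circ N).card : ℝ) with hc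
  have hc0 : 0 < c := Nat.cast_pos.2 (card_pos.2 hne)
  set z : G → ℂ := fun ξ => dir N ξ ^ 4 with hz
  have hz1 : ∀ ξ ∈ circ N, ‖z ξ‖ = 1 := fun ξ hξ => by
    rw [hz]; simp only [norm_pow, dir_norm N hN ξ hξ, one_pow]
  have hA : ∀ k, ∑ ξ ∈ circ N, z ξ ^ k = A k N := fun k => by
    rw [A_eq]
    exact sum_congr rfl fun ξ _ => by rw [hz]; simp only; rw [← pow_mul]
  have hA0 : A 0 N = c := by
    rw [← hA 0]
    simp [hc]
  -- lower bound
  have hlow : c * ((m : ℝ) + 1) ^ 2 ≤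
      ∑ p ∈ circ N ×ˢ circ N, ‖∑ j ∈ range (m + 1), (z p.1 * conj (z p.2)) ^ j‖ ^ 2 := by
    calc c * ((m : ℝ) + 1) ^ 2 = ∑ ξ ∈ circ N, ‖∑ j ∈ range (m + 1), (z ξ * conj (z ξ)) ^ j‖ ^ 2 := by
          rw [sum_congr rfl (g := fun _ => ((m : ℝ) + 1) ^ 2)]
          · rw [sum_const, nsmul_eq_mul]
          · intro ξ hξ
            have h1 : z ξ * conj (z ξ) = 1 := by
              rw [Complex.mul_conj', hz1 ξ hξ]; norm_num
            rw [h1]
            simp only [one_pow, sum_const, card_range, nsmul_eq_mul, mul_one]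
            rw [Complex.norm_natCast]
            push_cast
            rfl
      _ = ∑ p ∈ (circ N).image (fun ξ => (ξ, ξ)), ‖∑ j ∈ range (m + 1), (z p.1 * conj (z p.2)) ^ j‖ ^ 2 := by
          rw [sum_image]
          intro x _ y _ hxy
          exact (Prod.ext_iff.1 hxy).1
      _ ≤ _ := by
          apply sum_le_sum_of_subset_of_nonneg
          · intro p hp
            rw [mem_image] at hp
            obtain ⟨ξ, hξ, rfl⟩ := hp
            exact mem_product.2 ⟨hξ, hξ⟩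
          · intro _ _ _
            positivity
  rw [fejer] at hlow
  -- upper bound
  have hup : ∀ q ∈ range (m + 1) ×ˢ range (m + 1), ‖∑ ξ ∈ circ N, z ξ ^ q.1 * conj (z ξ) ^ q.2‖ ^ 2 ≤
      (if q.1 = q.2 then c ^ 2 else (δ * c) ^ 2) := by
    intro q hq
    rw [mem_product, mem_range, mem_range] at hq
    rcases lt_trichotomy q.1 q.2 with h1 | h1 | h1
    · rw [if_neg h1.ne]
      have h2 : ∑ ξ ∈ circ N, z ξ ^ q.1 * conj (z ξ) ^ q.2 = conj (A (q.2 - q.1) N) := by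
        rw [← hA, map_sum]
        exact sum_congr rfl fun ξ hξ => pow_conj_of_ge (hz1 ξ hξ) h1.le
      rw [h2, RCLike.norm_conj]
      exact pow_le_pow_left₀ (norm_nonneg _) (h _ (by omega) (by omega)) 2
    · rw [if_pos h1]
      have h2 : ∑ ξ ∈ circ N, z ξ ^ q.1 * conj (z ξ) ^ q.2 = A 0 N := by
        rw [← hA]
        refine sum_congr rfl fun ξ hξ => ?_
        rw [pow_conj_of_le (hz1 ξ hξ) h1.symm.le, h1, Nat.sub_self]
      rw [h2, hA0, Complex.norm_of_nonneg hc0.le]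
    · rw [if_neg h1.ne']
      have h2 : ∑ ξ ∈ circ N, z ξ ^ q.1 * conj (z ξ) ^ q.2 = A (q.1 - q.2) N := by
        rw [← hA]
        exact sum_congr rfl fun ξ hξ => pow_conj_of_le (hz1 ξ hξ) h1.le
      rw [h2]
      exact pow_le_pow_left₀ (norm_nonneg _) (h _ (by omega) (by omega)) 2
  have hsum : ∑ q ∈ range (m + 1) ×ˢ range (m + 1), (if q.1 = q.2 then c ^ 2 else (δ * c) ^ 2) =
      ((m : ℝ) + 1) * (c ^ 2 + m * (δ * c) ^ 2) := by
    rw [sum_product]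
    have h1 : ∀ i ∈ range (m + 1), ∑ j ∈ range (m + 1), (if i = j then c ^ 2 else (δ * c) ^ 2) =
        c ^ 2 + m * (δ * c) ^ 2 := by
      intro i hi
      have h2 : ∀ j, (if i = j then c ^ 2 else (δ * c) ^ 2) =
          (if i = j then c ^ 2 - (δ * c) ^ 2 else 0) + (δ * c) ^ 2 := by
        intro j
        split_ifs <;> ring
      rw [sum_congr rfl fun j _ => h2 j, sum_add_distrib, sum_ite_eq, if_pos hi, sum_const, card_range,
        nsmul_eq_mul]
      push_cast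
      ring
    rw [sum_congr rfl h1, sum_const, card_range, nsmul_eq_mul]
    push_cast
    ring
  have hfin := hlow.trans ((sum_le_sum hup).trans hsum.le)
  have hm : (0 : ℝ) < (m : ℝ) + 1 := by positivity
  have h3 : c * ((m : ℝ) + 1) * ((m : ℝ) + 1) ≤ c * ((m : ℝ) + 1) * (c * (1 + m * δ ^ 2)) := by
    nlinarith
  exact le_of_mul_le_mul_left h3 (by positivity)

end Pool.Agent.Zk55.SQ
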